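import Pool.Agent.H.MP_3ce60b_pr.B

namespace Pool.Agent.Results.MP_3ce60b_pr.Both
open MeasureTheory Filter Pool.Agent.H.MP_3ce60b_pr

theorem result : ∃ (Ω : Type) (_ : MeasurableSpace Ω) (P : Measure Ω) (_ : IsProbabilityMeasure P)
    (T : Ω → Ω) (w : Ω → ℤ → ℕ → ℝ),
    Ergodic T P ∧ (∀ ω z i, w (T ω) z i = w ω (z + 1) i) ∧ (∀ z i, Measurable fun ω => w ω z i) ∧
    (∀ ω z i, 1 / 2 ≤ w ω z i ∧ w ω z i ≤ 3 / 4) ∧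
    (∀ ε : ℝ, 0 < ε → ∃ N, ∀ ω z i, N ≤ i → |w ω z i - 1 / 2| < ε) ∧
    ∫⁻ ω, ∑' i, ENNReal.ofReal (2 * w ω 0 i - 1) ∂P = 1 ∧
    ∃ n : ℕ → ℕ, Tendsto n atTop atTop ∧ ∀ ε : ℝ, 0 < ε →
      Tendsto (fun k => ∫⁻ ω, ENNReal.ofReal (ex (w ω) (n k)
        (fun l => if ε * √(n k) * Real.log (n k) < pos l then 1 else 0)) ∂P) atTop (nhds 0) :=
  ⟨_, inferInstance, _, inferInstance, _, env, Pool.Agent.H.MP_f59e5e_pr.erg, env_stat, env_meas,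
    env_bd, env_mom, env_delta, _, n_top, main⟩

end Pool.Agent.Results.MP_3ce60b_pr.Both
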